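import Mathlib

/-!
Near planar Sidon sets (MP_f1f170_co): the arithmetic of the even case.
-/

namespace Pool.Agent.Sid13

open Finset

theorem even_core (m w q X Y S : ℝ) (hS : S ^ 2 = m) (hS0 : 0 ≤ S) (hw : 4 * w ^ 2 ≤ m)
    (hw2 : 2 ≤ w) (hq : 2 ≤ q) (hqw : q ≤ w) (hX0 : 0 ≤ X) (hX : m - w ≤ X ^ 2)
    (hX2 : X ^ 2 ≤ q ^ 2 * m) (hY2 : Y ^ 2 ≤ q ^ 2 * m)
    (hkey : (m - X) * (X + q) ≤ (m + Y) * w) : False := by
  have hwS : 2 * w ≤ S := by
    have h1 : (2 * w) ^ 2 ≤ S ^ 2 := by rw [hS]; nlinarith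
    exact le_of_sq_le_sq h1 hS0
  have hS4 : 4 ≤ S := by linarith
  have hm16 : 16 ≤ m := by nlinarith
  have hXle : X ≤ m / 2 := by
    have h1 : X ^ 2 ≤ (q * S) ^ 2 := by rw [mul_pow, hS]; exact hX2
    have h2 : X ≤ q * S := le_of_sq_le_sq h1 (by positivity)
    have h3 : q * S ≤ S / 2 * S := mul_le_mul_of_nonneg_right (by linarith) hS0
    nlinarith
  have hYle : Y ≤ m / 2 := by
    have h1 : Y ^ 2 ≤ (q * S) ^ 2 := by rw [mul_pow, hS]; exact hY2
    have h2 : Y ≤ q * S := le_of_sq_le_sq h1 (by positivity)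
    have h3 : q * S ≤ S / 2 * S := mul_le_mul_of_nonneg_right (by linarith) hS0
    nlinarith
  have hR : (m + Y) * w ≤ 3 / 4 * (m * S) := by
    have h1 : (m + Y) * w ≤ (3 / 2 * m) * w :=
      mul_le_mul_of_nonneg_right (by linarith) (by linarith)
    have h2 : (3 / 2 * m) * w ≤ (3 / 2 * m) * (S / 2) :=
      mul_le_mul_of_nonneg_left (by linarith) (by linarith)
    nlinarith
  have hmS : 0 < m * S := by positivity
  by_cases hc : X ≤ 3 / 2 * S
  · have hXS : S - 1 / 2 ≤ X := by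
      have h1 : (S - 1 / 2) ^ 2 ≤ X ^ 2 := by nlinarith
      exact le_of_sq_le_sq h1 hX0
    have h1 : (m - 3 / 2 * S) * (S + 3 / 2) ≤ (m - X) * (X + q) := by
      have h2 : 0 ≤ m - 3 / 2 * S := by nlinarith
      exact mul_le_mul (by linarith) (by linarith) (by linarith) (by linarith)
    have h3 : (m - 3 / 2 * S) * (S + 3 / 2) = m * S - 9 / 4 * S := by
      rw [← hS]; ring
    rw [h3] at h1
    have h4 : 9 / 4 * S < 1 / 4 * (m * S) := by nlinarith
    linarith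
  · push Not at hc
    have h1 : (m / 2) * (3 / 2 * S + 2) ≤ (m - X) * (X + q) :=
      mul_le_mul (by linarith) (by linarith) (by positivity) (by linarith)
    nlinarith

theorem even_arith {ι : Type*} [Fintype ι] [Nonempty ι] (μ : ι → ℕ) (m e n q : ℕ)
    (hq : Fintype.card ι = q) (hn : n + m = m ^ 2 + 1 + e) (hsum : ∑ i, μ i = m)
    (h1 : n + q * m ≤ q * ∑ i, μ i ^ 2 + q * (1 + e))
    (h2 : q * ∑ i, μ i ^ 2 + q ≤ n + q * m) (hq2 : 2 ≤ q) (hqe : q ≤ e + 1)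
    (h4 : 4 * (e + 1) ^ 2 ≤ m)
    (hkey : ∀ M, (∀ i, μ i ≤ M) → ∀ i, μ i * (m + q) ≤ q * μ i ^ 2 + M * (e + 1)) : False := by
  obtain ⟨i0, -, hi0⟩ := Finset.exists_min_image (univ : Finset ι) μ univ_nonempty
  obtain ⟨i1, -, hi1⟩ := Finset.exists_max_image (univ : Finset ι) μ univ_nonempty
  have hk := hkey (μ i1) (fun i => hi1 i (mem_univ _)) i0
  -- real versions
  set Q : ℝ := (q : ℝ) with hQ
  set M : ℝ := (m : ℝ) with hM
  set W : ℝ := (e : ℝ) + 1 with hW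
  have hn' : (n : ℝ) = M ^ 2 - M + W := by
    have : ((n + m : ℕ) : ℝ) = ((m ^ 2 + 1 + e : ℕ) : ℝ) := by rw [hn]
    push_cast at this
    simp only [hM, hW]; linarith
  have hs' : ∑ i, (μ i : ℝ) = M := by
    rw [hM, ← hsum]; push_cast; rfl
  have h1' : (n : ℝ) + Q * M ≤ Q * ∑ i, (μ i : ℝ) ^ 2 + Q * W := by
    have : ((n + q * m : ℕ) : ℝ) ≤ ((q * ∑ i, μ i ^ 2 + q * (1 + e) : ℕ) : ℝ) := by
      exact_mod_cast h1
    push_cast at this
    simp only [hM, hW, hQ]; linarith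
  have h2' : Q * ∑ i, (μ i : ℝ) ^ 2 + Q ≤ (n : ℝ) + Q * M := by
    have : ((q * ∑ i, μ i ^ 2 + q : ℕ) : ℝ) ≤ ((n + q * m : ℕ) : ℝ) := by
      exact_mod_cast h2
    push_cast at this
    simp only [hM, hQ]; linarith
  have hQ2 : (2 : ℝ) ≤ Q := by rw [hQ]; exact_mod_cast hq2
  have hQW : Q ≤ W := by
    rw [hQ, hW]; exact_mod_cast hqe
  have hWM : 4 * W ^ 2 ≤ M := by
    rw [hW, hM]; exact_mod_cast h4
  have hcard : ∑ _i : ι, (1 : ℝ) = Q := by
    rw [Finset.sum_const, Finset.card_univ, hq, nsmul_eq_mul, mul_one]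
  let u : ι → ℝ := fun i => M - Q * μ i
  have hu0 : ∑ i, u i = 0 := by
    simp only [u]
    rw [Finset.sum_sub_distrib, ← Finset.mul_sum, hs', Finset.sum_const, Finset.card_univ, hq,
      nsmul_eq_mul]
    ring
  have hu2 : ∑ i, u i ^ 2 = Q ^ 2 * ∑ i, (μ i : ℝ) ^ 2 - Q * M ^ 2 := by
    have : ∀ i, u i ^ 2 = M ^ 2 * 1 - 2 * M * Q * μ i + Q ^ 2 * (μ i : ℝ) ^ 2 := by
      intro i; simp only [u]; ring
    rw [Finset.sum_congr rfl fun i _ => this i, Finset.sum_add_distrib, Finset.sum_sub_distrib,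
      ← Finset.mul_sum, ← Finset.mul_sum, ← Finset.mul_sum, hcard, hs']
    ring
  set X : ℝ := u i0 with hX
  set Y : ℝ := - u i1 with hY
  have hXm : ∀ i, u i ≤ X := by
    intro i
    have : (μ i0 : ℝ) ≤ μ i := by exact_mod_cast hi0 i (mem_univ _)
    simp only [hX, u]
    nlinarith
  have hYm : ∀ i, -Y ≤ u i := by
    intro i
    have : (μ i : ℝ) ≤ μ i1 := by exact_mod_cast hi1 i (mem_univ _)
    simp only [hY, u]
    nlinarith
  have hlow : Q * (Q - 1) * (M - W) ≤ ∑ i, u i ^ 2 := by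
    rw [hu2]
    nlinarith
  have hup : ∑ i, u i ^ 2 ≤ Q ^ 2 * M := by
    rw [hu2]
    have hWleM : W ≤ M := by nlinarith
    nlinarith
  have hXY : Q * (X * Y) ≥ ∑ i, u i ^ 2 := by
    have h5 : 0 ≤ ∑ i, (X - u i) * (Y + u i) :=
      Finset.sum_nonneg fun i _ => mul_nonneg (by linarith [hXm i]) (by linarith [hYm i])
    have h6 : ∑ i, (X - u i) * (Y + u i) = Q * (X * Y) + (X - Y) * ∑ i, u i - ∑ i, u i ^ 2 := by
      have : ∀ i, (X - u i) * (Y + u i) = X * Y * 1 + (X - Y) * u i - u i ^ 2 := by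
        intro i; ring
      rw [Finset.sum_congr rfl fun i _ => this i, Finset.sum_sub_distrib, Finset.sum_add_distrib,
        ← Finset.mul_sum, ← Finset.mul_sum, hcard]
      ring
    rw [h6, hu0] at h5
    linarith
  have hX0 : 0 ≤ X := by
    by_contra hneg
    push Not at hneg
    have h5 : ∑ i, u i ≤ ∑ _i : ι, X := Finset.sum_le_sum fun i _ => hXm i
    rw [hu0, Finset.sum_const, Finset.card_univ, hq, nsmul_eq_mul] at h5
    have : (q : ℝ) * X < 0 := mul_neg_of_pos_of_neg (by rw [← hQ]; linarith) hneg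
    linarith
  have hYX : Y ≤ (Q - 1) * X := by
    classical
    have h5 : u i1 + ∑ i ∈ univ.erase i1, u i = 0 := by
      rw [Finset.add_sum_erase _ _ (mem_univ i1)]; exact hu0
    have h6 : ∑ i ∈ univ.erase i1, u i ≤ ∑ _i ∈ univ.erase i1, X :=
      Finset.sum_le_sum fun i _ => hXm i
    rw [Finset.sum_const, Finset.card_erase_of_mem (mem_univ _), Finset.card_univ, hq,
      nsmul_eq_mul] at h6
    have h7 : ((q - 1 : ℕ) : ℝ) = Q - 1 := by
      rw [Nat.cast_sub (by omega)]; simp [hQ]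
    rw [h7] at h6
    simp only [hY]; linarith
  have hX2 : M - W ≤ X ^ 2 := by
    have h5 : Q * (Q - 1) * (M - W) ≤ Q * (X * Y) := hlow.trans hXY
    have h6 : Q * (X * Y) ≤ Q * (X * ((Q - 1) * X)) :=
      mul_le_mul_of_nonneg_left (mul_le_mul_of_nonneg_left hYX hX0) (by linarith)
    have h7 : (Q * (Q - 1)) * (M - W) ≤ (Q * (Q - 1)) * X ^ 2 := by nlinarith
    exact le_of_mul_le_mul_left h7 (by nlinarith)
  have hXs : X ^ 2 ≤ Q ^ 2 * M :=
    (Finset.single_le_sum (f := fun i => u i ^ 2) (fun i _ => sq_nonneg _)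
      (mem_univ i0)).trans hup
  have hYs : Y ^ 2 ≤ Q ^ 2 * M := by
    have := (Finset.single_le_sum (f := fun i => u i ^ 2) (fun i _ => sq_nonneg _)
      (mem_univ i1)).trans hup
    have h5 : Y ^ 2 = u i1 ^ 2 := by simp only [hY]; ring
    rw [h5]; exact this
  have hk' : (M - X) * (X + Q) ≤ (M + Y) * W := by
    have h5 : (μ i0 : ℝ) * (M + Q) ≤ Q * (μ i0 : ℝ) ^ 2 + (μ i1 : ℝ) * W := by
      have : ((μ i0 * (m + q) : ℕ) : ℝ) ≤ ((q * μ i0 ^ 2 + μ i1 * (e + 1) : ℕ) : ℝ) := by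
        exact_mod_cast hk
      push_cast at this
      simp only [hM, hQ, hW]; linarith
    have h6 : Q * μ i0 = M - X := by simp only [hX, u]; ring
    have h7 : Q * μ i1 = M + Y := by simp only [hY, u]; ring
    have h8 : Q * ((μ i0 : ℝ) * (M + Q)) ≤ Q * (Q * (μ i0 : ℝ) ^ 2 + (μ i1 : ℝ) * W) :=
      mul_le_mul_of_nonneg_left h5 (by linarith)
    have h9 : Q * ((μ i0 : ℝ) * (M + Q)) = (M - X) * (M + Q) := by rw [← h6]; ring
    have h10 : Q * (Q * (μ i0 : ℝ) ^ 2 + (μ i1 : ℝ) * W) = (M - X) ^ 2 + (M + Y) * W := by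
      rw [← h6, ← h7]; ring
    rw [h9, h10] at h8
    nlinarith
  have hM0 : 0 ≤ M := by rw [hM]; positivity
  exact even_core M W Q X Y (Real.sqrt M) (Real.sq_sqrt hM0) (Real.sqrt_nonneg _) hWM
    (by linarith) hQ2 hQW hX0 hX2 hXs hYs hk'

end Pool.Agent.Sid13
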