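import Pool.Agent.Helper13_Sid.Defs2

/-!
Near planar Sidon sets (MP_f1f170_co): uniqueness of differences, the count of non-differences,
the parity of `tt + rr`, and the total sums.
-/

namespace Pool.Agent.Sid13

open Finset

variable {G : Type*} [AddCommGroup G] [Fintype G] [DecidableEq G]

theorem IsSidon.dbl_inj {A : Finset G} (hA : IsSidon A) {a b : G} (ha : a ∈ A) (hb : b ∈ A)
    (h : a + a = b + b) : a = b := by
  rcases hA a ha a ha b hb b hb h with h | h
  · exact h.1
  · exact h.1

theorem IsSidon.diff_unique {A : Finset G} (hA : IsSidon A) {a b c d : G} (ha : a ∈ A)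
    (hb : b ∈ A) (hc : c ∈ A) (hd : d ∈ A) (hab : a ≠ b) (h : a - b = c - d) :
    a = c ∧ b = d := by
  have h1 : a + d = c + b := by
    have := congrArg (fun x => x + (b + d)) h
    calc a + d = a - b + (b + d) := by abel
      _ = c - d + (b + d) := this
      _ = c + b := by abel
  rcases hA a ha d hd c hc b hb h1 with h2 | h2
  · exact ⟨h2.1, h2.2.symm⟩
  · exact absurd h2.1 hab

theorem mem_Dm {A : Finset G} {x : G} :
    x ∈ Dm A ↔ x ≠ 0 ∧ ∀ a ∈ A, ∀ b ∈ A, a - b ≠ x := by
  simp [Dm]

theorem neg_mem_Dm {A : Finset G} {x : G} (h : x ∈ Dm A) : -x ∈ Dm A := by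
  rw [mem_Dm] at h ⊢
  refine ⟨neg_ne_zero.2 h.1, fun a ha b hb hab => h.2 b hb a ha ?_⟩
  rw [← neg_sub a b, hab, neg_neg]

theorem exists_diff {A : Finset G} {x : G} (h0 : x ≠ 0) (h : x ∉ Dm A) :
    ∃ a ∈ A, ∃ b ∈ A, a - b = x := by
  by_contra hc
  push Not at hc
  exact h (mem_Dm.2 ⟨h0, hc⟩)

/-- `|G| = m² - m + 1 + e` -/
theorem card_Dm {A : Finset G} (hA : IsSidon A) (_hne : A.Nonempty) :
    Fintype.card G + A.card = A.card ^ 2 + 1 + (Dm A).card := by
  classical
  have h1 : (A.offDiag.image fun x => x.1 - x.2).card = A.offDiag.card := by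
    apply Finset.card_image_of_injOn
    rintro ⟨a, b⟩ h ⟨c, d⟩ h' he
    simp only [Finset.coe_offDiag, Set.mem_offDiag, Finset.mem_coe] at h h'
    have := hA.diff_unique h.1 h.2.1 h'.1 h'.2.1 h.2.2 he
    exact Prod.ext this.1 this.2
  have h2 : (univ : Finset G) = {0} ∪ ((A.offDiag.image fun x => x.1 - x.2) ∪ Dm A) := by
    ext x
    simp only [mem_univ, mem_union, mem_singleton, mem_image, mem_offDiag, Prod.exists, true_iff]
    by_cases h0 : x = 0
    · exact Or.inl h0
    · right
      by_cases hx : x ∈ Dm A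
      · exact Or.inr hx
      · obtain ⟨a, ha, b, hb, hab⟩ := exists_diff h0 hx
        left
        refine ⟨a, b, ⟨ha, hb, ?_⟩, hab⟩
        rintro rfl
        exact h0 (by rw [← hab, sub_self])
  have h3 : Disjoint (A.offDiag.image fun x => x.1 - x.2) (Dm A) := by
    rw [Finset.disjoint_left]
    intro x hx hx'
    simp only [mem_image, mem_offDiag, Prod.exists] at hx
    obtain ⟨a, b, ⟨ha, hb, hab⟩, rfl⟩ := hx
    exact (mem_Dm.1 hx').2 a ha b hb rfl
  have h4 : Disjoint ({0} : Finset G) ((A.offDiag.image fun x => x.1 - x.2) ∪ Dm A) := by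
    rw [Finset.disjoint_singleton_left]
    simp only [mem_union, mem_image, mem_offDiag, Prod.exists, not_or]
    constructor
    · rintro ⟨a, b, ⟨ha, hb, hab⟩, h⟩
      exact hab (sub_eq_zero.1 h)
    · intro h
      exact (mem_Dm.1 h).1 rfl
  have h5 : Fintype.card G = 1 + (A.offDiag.card + (Dm A).card) := by
    rw [← Finset.card_univ, h2, Finset.card_union_of_disjoint h4,
      Finset.card_union_of_disjoint h3, h1, Finset.card_singleton]
  rw [Finset.offDiag_card] at h5
  have h6 : A.card ≤ A.card * A.card := Nat.le_mul_self _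
  have h7 : A.card ^ 2 = A.card * A.card := by ring
  omega

theorem tt_mem {A : Finset G} (hA : IsSidon A) {g : G} (hg : g ∈ A) : tt A g = 1 := by
  have : (A.filter fun a => a + a - g ∈ A) = {g} := by
    ext a
    simp only [mem_filter, mem_singleton]
    constructor
    · rintro ⟨ha, h⟩
      have h1 : a + a = g + (a + a - g) := by abel
      rcases hA a ha a ha g hg _ h h1 with h2 | h2
      · exact h2.1
      · exact h2.2
    · rintro rfl
      exact ⟨hg, by simpa using hg⟩
  rw [tt, this, card_singleton]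

theorem rr_mem {A : Finset G} {g : G} (hg : g ∈ A) : rr A g = 0 := by
  rw [rr, card_eq_zero, filter_eq_empty_iff]
  intro a ha h
  exact (mem_Dm.1 h).2 g hg a ha rfl

/-- An involution on a finset has as many fixed points as elements, modulo 2. -/
theorem even_of_invol {α : Type*} [DecidableEq α] (s : Finset α) (f : α → α)
    (hf : ∀ a ∈ s, f a ∈ s) (hff : ∀ a ∈ s, f (f a) = a) :
    Even (s.card + (s.filter fun a => f a = a).card) := by
  have h1 : Even ((s.filter fun a => f a ≠ a).card) := by
    have := Finset.sum_involution (s := s.filter fun a => f a ≠ a) (f := fun _ => (1 : ZMod 2))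
      (g := fun a _ => f a) ?_ ?_ ?_ ?_
    · simp only [sum_const, nsmul_eq_mul, mul_one] at this
      exact (ZMod.natCast_eq_zero_iff_even).1 this
    · intro a _
      exact CharTwo.add_self_eq_zero _
    · intro a ha _
      exact (mem_filter.1 ha).2
    · intro a ha
      rw [mem_filter] at ha ⊢
      refine ⟨hf a ha.1, ?_⟩
      rw [hff a ha.1]
      exact ha.2.symm
    · intro a ha
      exact hff a (mem_filter.1 ha).1
  have h2 : s.card = (s.filter fun a => f a = a).card + (s.filter fun a => f a ≠ a).card :=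
    (Finset.card_filter_add_card_filter_not _).symm
  rw [h2]
  obtain ⟨k, hk⟩ := h1
  refine ⟨(s.filter fun a => f a = a).card + k, ?_⟩
  omega

theorem parity {A : Finset G} (hA : IsSidon A) {g : G} (hg : g ∉ A) :
    Even (tt A g + rr A g + A.card) := by
  classical
  -- the partner of `a`
  have hex : ∀ a ∈ A, g - a ∉ Dm A → ∃ b ∈ A, ∃ c ∈ A, b - c = g - a := by
    intro a ha h
    refine exists_diff ?_ h
    intro h0
    exact hg (by rw [sub_eq_zero.1 h0]; exact ha)
  let s : Finset G := A.filter fun a => g - a ∉ Dm A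
  let f : G → G := fun a => if h : a ∈ A ∧ g - a ∉ Dm A then (hex a h.1 h.2).choose else a
  have hf : ∀ a ∈ s, f a ∈ A ∧ ∃ c ∈ A, f a - c = g - a := by
    intro a ha
    have ha' : a ∈ A ∧ g - a ∉ Dm A := by simpa [s] using ha
    have h1 := (hex a ha'.1 ha'.2).choose_spec
    simp only [f, dif_pos ha']
    exact h1
  -- characterisation
  have hfu : ∀ a ∈ s, ∀ b ∈ A, ∀ c ∈ A, b - c = g - a → f a = b := by
    intro a ha b hb c hc h
    obtain ⟨h1, c', hc', h2⟩ := hf a ha
    have ha' : a ∈ A ∧ g - a ∉ Dm A := by simpa [s] using ha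
    have hne : b ≠ c := by
      rintro rfl
      rw [sub_self] at h
      exact hg (by rw [sub_eq_zero.1 h.symm]; exact ha'.1)
    exact (hA.diff_unique hb hc h1 hc' hne (h.trans h2.symm)).1.symm
  have hfs : ∀ a ∈ s, f a ∈ s := by
    intro a ha
    obtain ⟨h1, c, hc, h2⟩ := hf a ha
    have ha' : a ∈ A ∧ g - a ∉ Dm A := by simpa [s] using ha
    simp only [s, mem_filter]
    refine ⟨h1, ?_⟩
    intro hD
    refine (mem_Dm.1 hD).2 a ha'.1 c hc ?_
    have : f a - c + (a - f a) = g - a + (a - f a) := by rw [h2]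
    calc a - c = f a - c + (a - f a) := by abel
      _ = g - a + (a - f a) := this
      _ = g - f a := by abel
  have hff : ∀ a ∈ s, f (f a) = a := by
    intro a ha
    obtain ⟨h1, c, hc, h2⟩ := hf a ha
    have ha' : a ∈ A ∧ g - a ∉ Dm A := by simpa [s] using ha
    refine hfu (f a) (hfs a ha) a ha'.1 c hc ?_
    have : f a - c + (a - f a) = g - a + (a - f a) := by rw [h2]
    calc a - c = f a - c + (a - f a) := by abel
      _ = g - a + (a - f a) := this
      _ = g - f a := by abel
  have hfix : (s.filter fun a => f a = a) = A.filter fun a => a + a - g ∈ A := by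
    ext a
    simp only [mem_filter]
    constructor
    · rintro ⟨ha, h⟩
      obtain ⟨h1, c, hc, h2⟩ := hf a ha
      have ha' : a ∈ A ∧ g - a ∉ Dm A := by simpa [s] using ha
      refine ⟨ha'.1, ?_⟩
      rw [h] at h2
      have : a + a - g = c := by
        have h3 : a - c + (c - g + a) = g - a + (c - g + a) := by rw [h2]
        calc a + a - g = a - c + (c - g + a) := by abel
          _ = g - a + (c - g + a) := h3
          _ = c := by abel
      rw [this]; exact hc
    · rintro ⟨ha, h⟩
      have hs : a ∈ s := by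
        simp only [s, mem_filter]
        refine ⟨ha, fun hD => (mem_Dm.1 hD).2 a ha _ h ?_⟩
        abel
      refine ⟨hs, hfu a hs a ha _ h ?_⟩
      abel
  have h1 := even_of_invol s f hfs hff
  rw [hfix] at h1
  have h2 : A.card = (A.filter fun a => g - a ∈ Dm A).card + s.card :=
    (Finset.card_filter_add_card_filter_not _).symm
  rw [tt, rr]
  obtain ⟨k, hk⟩ := h1
  refine ⟨(A.filter fun a => g - a ∈ Dm A).card + k, ?_⟩
  omega

theorem sum_tt_mul (A : Finset G) (f : G → ℕ) :
    ∑ g, tt A g * f g = ∑ a ∈ A, ∑ c ∈ A, f (a + a - c) := by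
  have h1 : ∀ g, tt A g * f g = ∑ a ∈ A, if a + a - g ∈ A then f g else 0 := by
    intro g
    rw [tt, ← Finset.sum_filter, Finset.sum_const, smul_eq_mul]
  rw [Finset.sum_congr rfl fun g _ => h1 g, Finset.sum_comm]
  refine Finset.sum_congr rfl fun a _ => ?_
  rw [← Finset.sum_filter]
  refine Finset.sum_nbij' (fun g => a + a - g) (fun c => a + a - c) ?_ ?_ ?_ ?_ ?_
  · intro g hg
    exact (mem_filter.1 hg).2
  · intro c hc
    simp only [mem_filter, mem_univ, true_and]
    have : a + a - (a + a - c) = c := by abel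
    rw [this]; exact hc
  · intro g _; simp
  · intro c _; simp
  · intro g _
    simp

theorem sum_tt (A : Finset G) : ∑ g, tt A g = A.card ^ 2 := by
  have h := sum_tt_mul A fun _ => 1
  simp only [mul_one, sum_const, smul_eq_mul] at h
  rw [h]; ring

theorem sum_rr (A : Finset G) : ∑ g, rr A g = (Dm A).card * A.card := by
  have h1 : ∀ g, rr A g = ∑ a ∈ A, if g - a ∈ Dm A then 1 else 0 := by
    intro g
    rw [rr, Finset.card_filter]
  rw [Finset.sum_congr rfl fun g _ => h1 g, Finset.sum_comm]
  have h2 : ∀ a ∈ A, (∑ g, if g - a ∈ Dm A then 1 else 0) = (Dm A).card := by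
    intro a _
    rw [← Finset.card_filter]
    refine Finset.card_nbij' (fun g => g - a) (fun d => d + a) ?_ ?_ ?_ ?_
    · intro g hg
      exact (mem_filter.1 hg).2
    · intro d hd
      simp only [coe_filter, mem_univ, true_and, Set.mem_ofPred_eq]
      simpa using hd
    · intro g _; simp
    · intro d _; simp
  rw [Finset.sum_congr rfl h2, Finset.sum_const, smul_eq_mul, mul_comm]

end Pool.Agent.Sid13
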