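import Pool.Agent.Helper13_Sid.Basic

/-!
Near planar Sidon sets (MP_f1f170_co): first and second moments of `tt` on a class modulo `2G`.
-/

namespace Pool.Agent.Sid13

open Finset

variable {G : Type*} [AddCommGroup G] [Fintype G] [DecidableEq G]
variable {Q : Type*} [AddCommGroup Q] [Fintype Q] [DecidableEq Q]

theorem card_two_torsion (π : G →+ Q) (hs : Function.Surjective π)
    (hk : ∀ x, π x = 0 ↔ ∃ y, y + y = x) :
    (univ.filter fun y : G => y + y = 0).card = Fintype.card Q := by
  let δ : G →+ G := nsmulAddMonoidHom 2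
  have hδ : ∀ y, δ y = y + y := fun y => by
    simp [δ, two_nsmul]
  have hker : π.ker = δ.range := by
    ext x
    rw [AddMonoidHom.mem_ker, hk, AddMonoidHom.mem_range]
    constructor
    · rintro ⟨y, hy⟩; exact ⟨y, by rw [hδ, hy]⟩
    · rintro ⟨y, hy⟩; exact ⟨y, by rw [← hδ, hy]⟩
  have h1 : Nat.card G = Nat.card (G ⧸ δ.ker) * Nat.card δ.ker :=
    AddSubgroup.card_eq_card_quotient_mul_card_addSubgroup _
  have h2 : Nat.card (G ⧸ δ.ker) = Nat.card δ.range :=
    Nat.card_congr (QuotientAddGroup.quotientKerEquivRange δ).toEquiv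
  have h3 : Nat.card G = Nat.card (G ⧸ π.ker) * Nat.card π.ker :=
    AddSubgroup.card_eq_card_quotient_mul_card_addSubgroup _
  have h4 : Nat.card (G ⧸ π.ker) = Nat.card Q :=
    Nat.card_congr (QuotientAddGroup.quotientKerEquivOfSurjective π hs).toEquiv
  have h5 : Nat.card π.ker = Nat.card δ.range := by rw [hker]
  have h6 : 0 < Nat.card δ.range := Nat.card_pos
  have h7 : Nat.card δ.ker = Nat.card Q := by
    rw [h2] at h1
    rw [h4, h5] at h3
    have : Nat.card δ.range * Nat.card δ.ker = Nat.card δ.range * Nat.card Q := by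
      rw [← h1, h3, mul_comm]
    exact Nat.eq_of_mul_eq_mul_left h6 this
  have h8 : Nat.card δ.ker = (univ.filter fun y : G => y + y = 0).card := by
    rw [← Fintype.card_subtype, ← Nat.card_eq_fintype_card]
    exact Nat.card_congr (Equiv.subtypeEquivRight fun y => by rw [AddMonoidHom.mem_ker, hδ])
  rw [← h8, h7, Nat.card_eq_fintype_card]

theorem dbl_fiber (π : G →+ Q) (hs : Function.Surjective π)
    (hk : ∀ x, π x = 0 ↔ ∃ y, y + y = x) (x : G) :
    (univ.filter fun y : G => y + y = x).card ≤ Fintype.card Q := by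
  rw [← card_two_torsion π hs hk]
  by_cases h : ∃ y0 : G, y0 + y0 = x
  · obtain ⟨y0, hy0⟩ := h
    refine Finset.card_le_card_of_injOn (fun y => y - y0) ?_ ?_
    · intro y hy
      have hy' : y + y = x := by simpa using hy
      simp only [coe_filter, mem_univ, true_and, Set.mem_ofPred_eq]
      have : y - y0 + (y - y0) = (y + y) - (y0 + y0) := by abel
      rw [this, hy', hy0, sub_self]
    · intro y _ z _ hyz
      exact sub_left_injective hyz
  · have : (univ.filter fun y : G => y + y = x) = ∅ := by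
      rw [filter_eq_empty_iff]
      intro y _ hy
      exact h ⟨y, hy⟩
    rw [this]; simp

theorem pi_dbl (π : G →+ Q) (hk : ∀ x, π x = 0 ↔ ∃ y, y + y = x) (a c : G) :
    π (a + a - c) = π c := by
  have h1 : π (a + a) = 0 := (hk _).2 ⟨a, rfl⟩
  have h2 : π (c + c) = 0 := (hk _).2 ⟨c, rfl⟩
  rw [map_add] at h2
  rw [map_sub, h1, zero_sub]
  exact neg_eq_of_add_eq_zero_left h2

theorem class_t (A : Finset G) (π : G →+ Q) (hk : ∀ x, π x = 0 ↔ ∃ y, y + y = x) (κ : Q) :
    ∑ g ∈ univ.filter (fun g => π g = κ), tt A g = A.card * mm A π κ := by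
  have h := sum_tt_mul A fun g => if π g = κ then 1 else 0
  rw [Finset.sum_filter]
  have h1 : ∀ g, (if π g = κ then tt A g else 0) = tt A g * (if π g = κ then 1 else 0) := by
    intro g; split_ifs <;> simp
  rw [Finset.sum_congr rfl fun g _ => h1 g, h]
  have h2 : ∀ a ∈ A, (∑ c ∈ A, if π (a + a - c) = κ then 1 else 0) = mm A π κ := by
    intro a _
    rw [mm, Finset.card_filter]
    refine Finset.sum_congr rfl fun c _ => ?_
    rw [pi_dbl π hk]
  rw [Finset.sum_congr rfl h2, Finset.sum_const, smul_eq_mul]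

theorem class_tt {A : Finset G} (hA : IsSidon A) (π : G →+ Q) (hs : Function.Surjective π)
    (hk : ∀ x, π x = 0 ↔ ∃ y, y + y = x) (κ : Q) :
    ∑ g ∈ univ.filter (fun g => π g = κ), tt A g ^ 2 + Fintype.card Q * mm A π κ ≤
      A.card * mm A π κ + Fintype.card Q * mm A π κ ^ 2 := by
  classical
  set B : Finset G := A.filter fun a => π a = κ with hB
  have hBm : mm A π κ = B.card := rfl
  -- the triples
  let T : Finset (G × G × G) := (A ×ˢ (B ×ˢ A)).filter fun x =>
    x.2.2 ≠ x.1 ∧ x.2.2 + x.2.2 - (x.1 + x.1 - x.2.1) ∈ A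
  have h1 : ∑ g ∈ univ.filter (fun g => π g = κ), tt A g ^ 2 = A.card * B.card + T.card := by
    have h := sum_tt_mul A fun g => if π g = κ then tt A g else 0
    rw [Finset.sum_filter]
    have h1 : ∀ g, (if π g = κ then tt A g ^ 2 else 0) =
        tt A g * (if π g = κ then tt A g else 0) := by
      intro g; split_ifs
      · ring
      · simp
    rw [Finset.sum_congr rfl fun g _ => h1 g, h]
    have h2 : ∀ a ∈ A, (∑ c ∈ A, if π (a + a - c) = κ then tt A (a + a - c) else 0) =
        ∑ c ∈ B, tt A (a + a - c) := by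
      intro a _
      rw [hB, Finset.sum_filter]
      refine Finset.sum_congr rfl fun c _ => ?_
      rw [pi_dbl π hk]
    rw [Finset.sum_congr rfl h2]
    have h3 : ∀ a ∈ A, ∀ c ∈ B, tt A (a + a - c) =
        1 + ∑ a' ∈ A, if a' ≠ a ∧ a' + a' - (a + a - c) ∈ A then 1 else 0 := by
      intro a ha c hc
      have hcA : c ∈ A := (mem_filter.1 hc).1
      rw [tt, Finset.card_filter, ← Finset.add_sum_erase A _ ha,
        ← Finset.add_sum_erase A (fun a' => if a' ≠ a ∧ a' + a' - (a + a - c) ∈ A then 1 else 0) ha]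
      have h4 : a + a - (a + a - c) ∈ A := by
        have : a + a - (a + a - c) = c := by abel
        rw [this]; exact hcA
      rw [if_pos h4]
      simp only [ne_eq, not_true_eq_false, false_and, if_false, zero_add]
      congr 1
      refine Finset.sum_congr rfl fun a' ha' => ?_
      have : a' ≠ a := (Finset.mem_erase.1 ha').1
      simp [this]
    have h4 : ∑ a ∈ A, ∑ c ∈ B, tt A (a + a - c) =
        ∑ a ∈ A, ∑ c ∈ B, (1 + ∑ a' ∈ A, if a' ≠ a ∧ a' + a' - (a + a - c) ∈ A then 1 else 0) :=
      Finset.sum_congr rfl fun a ha => Finset.sum_congr rfl fun c hc => h3 a ha c hc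
    rw [h4]
    simp only [Finset.sum_add_distrib, Finset.sum_const, smul_eq_mul, mul_one]
    congr 1
    simp only [T]
    rw [Finset.card_filter, Finset.sum_product]
    refine Finset.sum_congr rfl fun a _ => ?_
    rw [Finset.sum_product]
  -- the count of the triples
  have h2 : T.card ≤ Fintype.card Q * B.offDiag.card := by
    refine Finset.card_le_mul_card_image_of_maps_to
      (f := fun x : G × G × G => (x.2.1, x.2.2 + x.2.2 - (x.1 + x.1 - x.2.1))) ?_ _ ?_
    · rintro ⟨a, c, a'⟩ hx
      simp only [T, mem_filter, mem_product] at hx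
      obtain ⟨⟨ha, hc, ha'⟩, hne, hmem⟩ := hx
      simp only [mem_offDiag]
      refine ⟨hc, ?_, ?_⟩
      · rw [hB, mem_filter]
        refine ⟨hmem, ?_⟩
        have hcκ : π c = κ := (mem_filter.1 hc).2
        rw [pi_dbl π hk, pi_dbl π hk, hcκ]
      · intro h
        have h5 : a' + a' = a + a := by
          have : a' + a' - (a + a - c) + (a + a - c) = c + (a + a - c) := by rw [← h]
          calc a' + a' = a' + a' - (a + a - c) + (a + a - c) := by abel
            _ = c + (a + a - c) := this
            _ = a + a := by abel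
        exact hne (hA.dbl_inj ha' ha h5)
    · rintro ⟨c, c'⟩ _
      refine le_trans ?_ (dbl_fiber π hs hk (c' - c))
      refine Finset.card_le_card_of_injOn (fun x => x.2.2 - x.1) ?_ ?_
      · rintro ⟨a, c1, a'⟩ hx
        simp only [coe_filter, Set.mem_ofPred_eq, T, mem_filter, mem_product, Prod.mk.injEq] at hx
        obtain ⟨⟨⟨ha, hc, ha'⟩, hne, hmem⟩, rfl, rfl⟩ := hx
        simp only [coe_filter, mem_univ, true_and, Set.mem_ofPred_eq]
        abel
      · rintro ⟨a, c1, a'⟩ hx ⟨b, c2, b'⟩ hy hxy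
        simp only [coe_filter, Set.mem_ofPred_eq, T, mem_filter, mem_product, Prod.mk.injEq] at hx hy
        obtain ⟨⟨⟨ha, hc, ha'⟩, hne, hmem⟩, h3, h4⟩ := hx
        obtain ⟨⟨⟨hb, hc2, hb'⟩, hne2, hmem2⟩, h5, h6⟩ := hy
        simp only at hxy
        have := hA.diff_unique ha' ha hb' hb hne hxy
        simp only [Prod.mk.injEq]
        exact ⟨this.2, h3.trans h5.symm, this.1⟩
  rw [h1, hBm]
  rw [Finset.offDiag_card] at h2
  have h3 : B.card ≤ B.card * B.card := Nat.le_mul_self _
  have h4 : Fintype.card Q * (B.card * B.card - B.card) + Fintype.card Q * B.card =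
      Fintype.card Q * B.card ^ 2 := by
    rw [← mul_add, Nat.sub_add_cancel h3]; ring
  omega

end Pool.Agent.Sid13
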