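import Mathlib

/-!
Near planar Sidon sets (MP_f1f170_co), definitions.
-/

namespace Pool.Agent.Sid13

open Finset

variable {G : Type*} [AddCommGroup G] [Fintype G] [DecidableEq G]

/-- A Sidon set: the sums of two elements (equal elements allowed) are distinct up to order. -/
def IsSidon (A : Finset G) : Prop :=
  ∀ a ∈ A, ∀ b ∈ A, ∀ c ∈ A, ∀ d ∈ A,
    a + b = c + d → (a = c ∧ b = d) ∨ (a = d ∧ b = c)

/-- The nonzero elements of `G` that are not differences of elements of `A`. -/
def Dm (A : Finset G) : Finset G :=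
  univ.filter fun x => x ≠ 0 ∧ ∀ a ∈ A, ∀ b ∈ A, a - b ≠ x

/-- The number of `a ∈ A` with `2a - g ∈ A`. -/
def tt (A : Finset G) (g : G) : ℕ := (A.filter fun a => a + a - g ∈ A).card

/-- The number of `a ∈ A` with `g - a ∈ Dm A`. -/
def rr (A : Finset G) (g : G) : ℕ := (A.filter fun a => g - a ∈ Dm A).card

end Pool.Agent.Sid13
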