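import Pool.Agent.Helper13_Sid.Defs

/-!
Classes modulo 2G (MP_f1f170_co): `π : G →+ Q` is a homomorphism onto `Q ≅ G / 2G`.
-/

namespace Pool.Agent.Sid13

open Finset

/-- The number of `a ∈ A` in the class `κ`. -/
def mm {G : Type*} [AddCommGroup G] [Fintype G] [DecidableEq G] {Q : Type*} [AddCommGroup Q]
    [Fintype Q] [DecidableEq Q] (A : Finset G) (π : G →+ Q) (κ : Q) : ℕ :=
  (A.filter fun a => π a = κ).card

end Pool.Agent.Sid13
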