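import Pool.Agent.Helper13_Sid.Cls
import Pool.Agent.Helper13_Sid.Arith
import Pool.Agent.Helper78_Sid.C

/-!
Near planar Sidon sets (MP_f1f170_co): the case `m` even, `|G|` even.
-/

namespace Pool.Agent.Sid13

open Finset

variable {G : Type*} [AddCommGroup G] [Fintype G] [DecidableEq G]

theorem two_mul_le_sq_add (t : ℕ) : 2 * t ≤ t ^ 2 + if Odd t then 1 else 0 := by
  rcases Nat.lt_or_ge t 3 with h | h
  · interval_cases t
    · simp
    · simp
    · simp
  · have : 2 * t ≤ t ^ 2 := by nlinarith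
    omega

theorem class_key {Q : Type*} [AddCommGroup Q] [Fintype Q] [DecidableEq Q] {A : Finset G}
    (hA : IsSidon A) (heven : Even A.card) (π : G →+ Q) (hs : Function.Surjective π)
    (hk : ∀ x, π x = 0 ↔ ∃ y, y + y = x) (M : ℕ) (hM : ∀ l, mm A π l ≤ M) (κ : Q) :
    mm A π κ * (A.card + Fintype.card Q) ≤
      Fintype.card Q * mm A π κ ^ 2 + M * ((Dm A).card + 1) := by
  have h1 := class_t A π hk κ
  have h2 := class_tt hA π hs hk κ
  have h3 := class_odd hA heven π κ hM
  have h4 : 2 * ∑ g ∈ univ.filter (fun g => π g = κ), tt A g ≤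
      ∑ g ∈ univ.filter (fun g => π g = κ), tt A g ^ 2 +
        (univ.filter fun g => π g = κ ∧ Odd (tt A g)).card := by
    rw [← Finset.filter_filter, Finset.card_filter, Finset.mul_sum, ← Finset.sum_add_distrib]
    exact Finset.sum_le_sum fun g _ => two_mul_le_sq_add _
  rw [h1] at h4
  nlinarith

/-- No Sidon set of even size `m` in a group of even order `m² - m + 1 + e` if
`4 (e + 1)² ≤ m`. -/
theorem gap_even {A : Finset G} (hA : IsSidon A) (heven : Even A.card)
    (hG : Even (Fintype.card G)) : A.card < 4 * ((Dm A).card + 1) ^ 2 := by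
  classical
  by_contra hcon
  push Not at hcon
  let δ : G →+ G := nsmulAddMonoidHom 2
  have hδ : ∀ y, δ y = y + y := fun y => by
    simp [δ, two_nsmul]
  let Q : Type _ := G ⧸ δ.range
  letI : Fintype Q := Fintype.ofFinite Q
  let π : G →+ Q := QuotientAddGroup.mk' δ.range
  have hs : Function.Surjective π := QuotientAddGroup.mk'_surjective _
  have hk : ∀ x, π x = 0 ↔ ∃ y, y + y = x := by
    intro x
    have : π x = 0 ↔ x ∈ δ.range := QuotientAddGroup.eq_zero_iff x
    rw [this, AddMonoidHom.mem_range]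
    constructor
    · rintro ⟨y, hy⟩; exact ⟨y, by rw [← hδ, hy]⟩
    · rintro ⟨y, hy⟩; exact ⟨y, by rw [hδ, hy]⟩
  have hne : A.Nonempty := by
    rw [← Finset.card_pos]
    refine lt_of_lt_of_le ?_ hcon
    positivity
  haveI : Nonempty Q := ⟨0⟩
  exact even_arith (fun κ => mm A π κ) A.card (Dm A).card (Fintype.card G) (Fintype.card Q) rfl
    (card_Dm hA hne) (sum_mm A π) (class_sq_ge hA π hs hk) (class_sq_le hA π hs hk)
    (two_le_card_Q hG π hs hk) (card_Q_le hA hne π hs hk) hcon
    (fun M hM κ => class_key hA heven π hs hk M hM κ)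

end Pool.Agent.Sid13
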