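import Pool.Agent.Helper13_Sid.Basic

/-!
Near planar Sidon sets (MP_f1f170_co): for odd `m > (e+1)(2e+1)` some translate `A + g` is `2A`.
-/

namespace Pool.Agent.Sid13

open Finset

variable {G : Type*} [AddCommGroup G] [Fintype G] [DecidableEq G]

theorem one_le_tr {A : Finset G} (hA : IsSidon A) (hodd : Odd A.card) (g : G) :
    1 ≤ tt A g + rr A g := by
  by_cases hg : g ∈ A
  · rw [tt_mem hA hg]; omega
  · have h := parity hA hg
    by_contra hc
    have h0 : tt A g + rr A g = 0 := by omega
    rw [h0, zero_add] at h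
    exact (Nat.not_even_iff_odd.2 hodd) h

theorem exists_mult' {A : Finset G} (hA : IsSidon A) (hodd : Odd A.card)
    (line_off_t : ∀ p : G, (∀ a ∈ A, a + a ≠ p) → ∑ c ∈ A, tt A (p - c) ≤ A.card)
    (line_off_r : ∀ p : G, ∑ c ∈ A, rr A (p - c) ≤ 2 * (Dm A).card)
    (line_on : ∀ a ∈ A, 2 * A.card ≤ ∑ c ∈ A, (tt A (a + a - c) + rr A (a + a - c)) + 1)
    (hm : ((Dm A).card + 1) * (2 * (Dm A).card + 1) < A.card) :
    ∃ g, ∀ a ∈ A, a + a - g ∈ A := by
  classical
  by_contra hno
  push Not at hno
  set e := (Dm A).card with he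
  have hne : A.Nonempty := by
    rw [← Finset.card_pos]; exact lt_of_le_of_lt (Nat.zero_le _) hm
  have hb : ∀ g, tt A g + rr A g ≤ 2 * e + 1 := by
    intro g
    obtain ⟨a0, ha0, h0⟩ := hno g
    have h1 : ∃ c ∈ A, c ∉ (A.filter fun a => a + a - g ∈ A).image fun a => a + a - g := by
      by_contra hc
      push Not at hc
      have h2 : A.card ≤ ((A.filter fun a => a + a - g ∈ A).image fun a => a + a - g).card :=
        Finset.card_le_card fun c hc' => hc c hc'
      have h3 : ((A.filter fun a => a + a - g ∈ A).image fun a => a + a - g).card ≤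
          (A.filter fun a => a + a - g ∈ A).card := Finset.card_image_le
      have h4 : (A.filter fun a => a + a - g ∈ A).card < A.card := by
        apply Finset.card_lt_card
        rw [Finset.filter_ssubset]
        exact ⟨a0, ha0, h0⟩
      omega
    obtain ⟨c0, hc0, h1⟩ := h1
    have hp : ∀ a ∈ A, a + a ≠ g + c0 := by
      intro a ha h
      apply h1
      rw [mem_image]
      have h2 : a + a - g = c0 := by rw [h]; abel
      exact ⟨a, mem_filter.2 ⟨ha, by rw [h2]; exact hc0⟩, h2⟩
    have h2 := line_off_t (g + c0) hp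
    have h3 := line_off_r (g + c0)
    have h4 : ∑ c ∈ A, (tt A (g + c0 - c) + rr A (g + c0 - c)) ≤ A.card + 2 * e := by
      rw [Finset.sum_add_distrib]; omega
    rw [← Finset.add_sum_erase A _ hc0] at h4
    have h5 : (A.erase c0).card ≤
        ∑ c ∈ A.erase c0, (tt A (g + c0 - c) + rr A (g + c0 - c)) := by
      rw [Finset.card_eq_sum_ones]
      exact Finset.sum_le_sum fun c _ => one_le_tr hA hodd _
    rw [Finset.card_erase_of_mem hc0] at h5
    have h6 : g + c0 - c0 = g := by abel
    rw [h6] at h4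
    have h7 : 0 < A.card := hne.card_pos
    omega
  -- the average argument
  have h1 := sum_tt_mul A fun g => tt A g + rr A g - 1
  have h2 : A.card * (A.card - 1) ≤
      ∑ a ∈ A, ∑ c ∈ A, (tt A (a + a - c) + rr A (a + a - c) - 1) := by
    rw [← smul_eq_mul, ← Finset.sum_const]
    refine Finset.sum_le_sum fun a ha => ?_
    have h3 := line_on a ha
    have h4 : ∑ c ∈ A, (tt A (a + a - c) + rr A (a + a - c)) =
        ∑ c ∈ A, (tt A (a + a - c) + rr A (a + a - c) - 1) + A.card := by
      rw [Finset.card_eq_sum_ones, ← Finset.sum_add_distrib]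
      refine Finset.sum_congr rfl fun c _ => ?_
      have := one_le_tr hA hodd (a + a - c)
      omega
    omega
  have h3 : ∑ g, tt A g * (tt A g + rr A g - 1) ≤
      (2 * e + 1) * ∑ g, (tt A g + rr A g - 1) := by
    rw [Finset.mul_sum]
    refine Finset.sum_le_sum fun g _ => Nat.mul_le_mul_right _ ?_
    have := hb g
    omega
  have h4 : ∑ g, (tt A g + rr A g - 1) + Fintype.card G = A.card ^ 2 + e * A.card := by
    rw [← sum_tt A, he, ← sum_rr A, ← Finset.sum_add_distrib, ← Finset.card_univ,
      Finset.card_eq_sum_ones, ← Finset.sum_add_distrib]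
    refine Finset.sum_congr rfl fun g _ => ?_
    have := one_le_tr hA hodd g
    omega
  have h5 := card_Dm hA hne
  rw [← he] at h5
  obtain ⟨k, hk⟩ : ∃ k, A.card = k + 1 := ⟨A.card - 1, by have := hne.card_pos; omega⟩
  have h6 : ∑ g, (tt A g + rr A g - 1) = (e + 1) * k := by
    rw [hk] at h4 h5
    nlinarith
  have h7 : A.card * (A.card - 1) ≤ (2 * e + 1) * ((e + 1) * k) := by
    rw [← h6]
    exact (h2.trans (le_of_eq h1.symm)).trans h3
  have h8 : 1 ≤ k := by
    have : 1 ≤ (e + 1) * (2 * e + 1) := Nat.succ_le_of_lt (by positivity)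
    omega
  rw [hk] at h7 hm
  simp only [Nat.add_sub_cancel] at h7
  have h9 : k + 1 ≤ (2 * e + 1) * (e + 1) := by
    have : (k + 1) * k ≤ ((2 * e + 1) * (e + 1)) * k := by
      calc (k + 1) * k ≤ (2 * e + 1) * ((e + 1) * k) := h7
        _ = ((2 * e + 1) * (e + 1)) * k := by ring
    exact Nat.le_of_mul_le_mul_right this (by omega)
  have h10 : (2 * e + 1) * (e + 1) = (e + 1) * (2 * e + 1) := by ring
  omega

end Pool.Agent.Sid13
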